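import Pool.Agent.KS6_11.RkTwo.Flat

/-!
# A closed manifold of nonpositive curvature without any rank-one isometry, whose fundamental group
has an element with infinite cyclic stable centraliser

Every geodesic line of the product of two hyperbolic planes lies in a flat plane, so no isometry of
the product is rank-one. There is a group which acts freely, properly discontinuously and
cocompactly by isometries on the product, so that the quotient is a closed Riemannian manifold of
nonpositive curvature, and which has an element `g ≠ 1` whose stable centraliser is infinite cyclic.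
-/

set_option autoImplicit false

namespace Pool.Agent.Results.MP_adbdc7_gt.NoRankOneAtAll

open UpperHalfPlane
open scoped MatrixGroups
open Pool.Agent.Results.MP_adbdc7_gt.NotRankOneCyclicCentraliser

/-- The line `γ` lies in a flat plane: there is an isometric embedding `F` of the Euclidean plane
with `F (s, 0) = γ s`. -/
def LiesInFlatPlane {X : Type} [MetricSpace X] (γ : ℝ → X) : Prop :=
  ∃ F : ℝ → ℝ → X, (∀ s, F s 0 = γ s) ∧
    ∀ s t s' t' : ℝ, dist (F s t) (F s' t') = √((s - s') ^ 2 + (t - t') ^ 2)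

/-- (1) Every geodesic line of the product of two hyperbolic planes lies in a flat plane. (2) No
self-map of the product is a rank-one isometry. (3) Some subgroup `Γ` of `SL(2,ℝ) × SL(2,ℝ)` acts
freely, properly discontinuously, cocompactly and by isometries on the product; hence no element of
`Γ` is rank-one; but some `g ≠ 1` in `Γ`, which has an axis, has infinite cyclic stable centraliser
in `Γ`. -/
theorem result :
    (∀ γ : ℝ → HH, Isometry γ → LiesInFlatPlane γ) ∧
    (∀ f : HH → HH, ¬ IsRankOne f) ∧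
    ∃ Γ : Subgroup (SL(2, ℝ) × SL(2, ℝ)),
      (∀ g ∈ Γ, ∀ x y : HH, dist (act g x) (act g y) = dist x y) ∧
      (∀ g ∈ Γ, ∀ x : HH, act g x = x → g = 1) ∧
      (∀ K : Set HH, IsCompact K → {g | g ∈ Γ ∧ (act g '' K ∩ K).Nonempty}.Finite) ∧
      (∃ K : Set HH, IsCompact K ∧ ∀ x, ∃ g ∈ Γ, act g x ∈ K) ∧
      (∀ g ∈ Γ, ¬ IsRankOne (act g)) ∧
      ∃ g : Γ, g ≠ 1 ∧ (∃ γ, IsAxis (act g) γ) ∧
        Nonempty (stableCentraliser g ≃* Multiplicative ℤ) := by
  have h1 : ∀ γ : ℝ → HH, Isometry γ → LiesInFlatPlane γ := fun γ hγ =>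
    Pool.Agent.KS6_11.RkTwo.flat_plane γ hγ
  have h2 : ∀ f : HH → HH, ¬ IsRankOne f := by
    rintro f ⟨⟨γ, hγ⟩, hf⟩
    obtain ⟨F, hF0, hF⟩ := h1 γ hγ.1
    exact hf γ hγ ⟨F, hF0, fun s t s' t' _ _ => hF s t s' t'⟩
  obtain ⟨Γ, a1, a2, a3, a4, g, hg, ⟨γ, hγ, _⟩, _, hc⟩ := NotRankOneCyclicCentraliser.result
  exact ⟨h1, h2, Γ, a1, a2, a3, a4, fun g _ => h2 _, g, hg, ⟨γ, hγ⟩, hc⟩

end Pool.Agent.Results.MP_adbdc7_gt.NoRankOneAtAll
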